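import Pool.Agent.N39.RW.UniA2

set_option autoImplicit false

/-!
# Prime multipliers `k` with `2 k n + 1` almost prime, in short windows, for every `n`

For every `n ≤ X^A` (in particular for every prime `n = p` with `X ≤ p ≤ 4 X`): around a positive proportion of the
integers of `(X, 2X]` ALL windows of length at least `K / V` contain the correct order of magnitude of primes `k` for
which `2 k n + 1` is a product of boundedly many primes; uniformly in `n`.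
-/

namespace Pool.Agent.Results.MP_2f88e5_nt.PrimeMultipliersInWindows

open Filter

/-- the number of the residues `m` modulo `q` with `q ∣ m (2 m n + 1)` -/
def nu (n q : ℕ) : ℕ := ((Finset.range q).filter (fun m : ℕ => q ∣ m * (2 * m * n + 1))).card

/-- the product of the `1 - ν(q) / q` over the primes `q ≤ X` -/
noncomputable def V (n X : ℕ) : ℝ := ∏ q ∈ (Finset.Icc 1 X).filter Nat.Prime, (1 - (nu n q : ℝ) / q)

/-- `k` is a prime and `2 k n + 1` is a product of at most `R` primes, all of them larger than `z` -/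
def Good (n R : ℕ) (z : ℝ) (k : ℕ) : Prop :=
  k.Prime ∧ (2 * k * n + 1).primeFactorsList.length ≤ R ∧ ∀ q : ℕ, q.Prime → q ∣ 2 * k * n + 1 → z < (q : ℝ)

/-- all prime factors of `m (2 m n + 1)` are larger than `z` -/
def Sieved (n : ℕ) (z : ℝ) (m : ℕ) : Prop := ∀ q : ℕ, q.Prime → q ∣ m * (2 * m * n + 1) → z < (q : ℝ)

/-- `s` is regular: in ALL windows `(u, v]` with `u ≤ s ≤ v` and `K / V ≤ v - u ≤ s` there are at least
`c₁ (v - u) V` good primes `k` and at most `c₂ (v - u) V` sieved integers; the parameters are `R = (A + 2) r` and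
`z = X^(1/r)`, and `V` is the product up to `X`. -/
def Regular (n X A r : ℕ) (c₁ c₂ K : ℝ) (s : ℕ) : Prop :=
  ∀ u v : ℕ, u ≤ s → s ≤ v → K / V n X ≤ (v : ℝ) - u → (v : ℝ) - u ≤ s →
    c₁ * ((v : ℝ) - u) * V n X ≤
      ({k : ℕ | u < k ∧ k ≤ v ∧ Good n ((A + 2) * r) ((X : ℝ) ^ (1 / (r : ℝ))) k}.ncard : ℝ) ∧
    ({m : ℕ | u < m ∧ m ≤ v ∧ Sieved n ((X : ℝ) ^ (1 / (r : ℝ))) m}.ncard : ℝ) ≤
      c₂ * ((v : ℝ) - u) * V n X

open Pool.Agent.H373R2.T7 Pool.Agent.W123.RP Pool.Agent.W123.RU Pool.Agent.N39.RW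

/-- the condition `q ∣ 2 m n + 1` -/
def QA (n q m : ℕ) : Prop := q ∣ 2 * m * n + 1

theorem perA_QA (n : ℕ) : PerA (QA n) 1 where
  per := fun q m => by
    unfold QA
    have h1 : 2 * m * n + 1 = 2 * (m % q) * n + 1 + q * (2 * (m / q) * n) := by
      have h := Nat.div_add_mod m q
      calc 2 * m * n + 1 = 2 * (q * (m / q) + m % q) * n + 1 := by rw [h]
        _ = _ := by ring
    rw [h1]
    exact (Nat.dvd_add_left (dvd_mul_right _ _))
  few := fun q hq => by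
    classical
    unfold rhoA
    rw [Finset.card_le_one]
    intro x hx y hy
    simp only [Finset.mem_filter, Finset.mem_range] at hx hy
    unfold QA at hx hy
    have h1 : (q : ℤ) ∣ 2 * (x : ℤ) * n + 1 := by exact_mod_cast Int.natCast_dvd_natCast.2 hx.2.2
    have h2 : (q : ℤ) ∣ 2 * (y : ℤ) * n + 1 := by exact_mod_cast Int.natCast_dvd_natCast.2 hy.2.2
    have h3 : (q : ℤ) ∣ (x : ℤ) - y := by
      have h4 : (x : ℤ) - y = (x - y) * (2 * y * n + 1) - y * ((2 * x * n + 1) - (2 * y * n + 1)) := by ring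
      rw [h4]
      exact dvd_sub (h2.mul_left _) ((dvd_sub h1 h2).mul_left _)
    have h5 : |(x : ℤ) - y| < q := by
      rw [abs_lt]
      constructor <;> omega
    have := Int.eq_zero_of_abs_lt_dvd h3 h5
    omega

theorem adm_QQ (n q : ℕ) (hq : q.Prime) : nuB (QQ (QA n)) q < q := by
  classical
  rw [nuQQ _ q hq]
  have hfew := (perA_QA n).few q hq
  have h2 := hq.two_le
  rcases (by omega : q = 2 ∨ 3 ≤ q) with rfl | h3
  · have h5 : rhoA (QA n) 2 = 0 := by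
      unfold rhoA
      rw [Finset.card_eq_zero, Finset.eq_empty_iff_forall_notMem]
      intro x hx
      simp only [Finset.mem_filter, Finset.mem_range] at hx
      obtain ⟨hx1, hx2, hx3⟩ := hx
      unfold QA at hx3
      obtain ⟨j, hj⟩ := hx3
      have : 2 * x * n = 2 * (x * n) := by ring
      omega
    omega
  · omega

/-- the primes with a collision at the distance `h` -/
theorem coll_cases (n q T h : ℕ) (hq : q.Prime) (hT : T < q) (hh : 1 ≤ h) (hhT : h ≤ T)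
    (hC : CoG (QQ (QA n)) q h) :
    (q : ℤ) ∣ 2 * n * h + 1 ∨ (q : ℤ) ∣ 2 * n * h - 1 := by
  have hph : ¬ (q : ℤ) ∣ (h : ℤ) := by
    intro hd
    have := Nat.le_of_dvd (by omega) (Int.natCast_dvd_natCast.1 hd)
    omega
  obtain ⟨m, h1, h2⟩ := hC
  have cast1 : ∀ m : ℕ, QA n q m → (q : ℤ) ∣ 2 * m * n + 1 := by
    intro m h
    unfold QA at h
    exact_mod_cast Int.natCast_dvd_natCast.2 h
  rcases h1 with h1 | h1 <;> rcases h2 with h2 | h2
  · exfalso
    apply hph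
    have h3 : (q : ℤ) ∣ (m : ℤ) := Int.natCast_dvd_natCast.2 h1
    have h4 : (q : ℤ) ∣ ((m + h : ℕ) : ℤ) := Int.natCast_dvd_natCast.2 h2
    push_cast at h4
    have h5 : (h : ℤ) = (m + h) - m := by ring
    rw [h5]
    exact dvd_sub h4 h3
  · left
    have h3 : (q : ℤ) ∣ (m : ℤ) := Int.natCast_dvd_natCast.2 h1
    have h4 := cast1 _ h2
    push_cast at h4
    have h5 : (2 : ℤ) * n * h + 1 = (2 * (m + h) * n + 1) - m * (2 * n) := by ring
    rw [h5]
    exact dvd_sub h4 (h3.mul_right _)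
  · right
    have h3 : (q : ℤ) ∣ ((m + h : ℕ) : ℤ) := Int.natCast_dvd_natCast.2 h2
    have h4 := cast1 _ h1
    push_cast at h3
    have h5 : (2 : ℤ) * n * h - 1 = (m + h) * (2 * n) - (2 * m * n + 1) := by ring
    rw [h5]
    exact dvd_sub (h3.mul_right _) h4
  · exfalso
    have h3 := cast1 _ h1
    have h4 := cast1 _ h2
    push_cast at h4
    have h5 : (q : ℤ) ∣ h * (2 * n) := by
      have h6 : (h : ℤ) * (2 * n) = (2 * (m + h) * n + 1) - (2 * m * n + 1) := by ring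
      rw [h6]
      exact dvd_sub h4 h3
    have h6 := ((Nat.prime_iff_prime_int.1 hq).dvd_or_dvd h5).resolve_left hph
    have h7 : (q : ℤ) ∣ 1 := by
      have h8 : (1 : ℤ) = (2 * m * n + 1) - m * (2 * n) := by ring
      rw [h8]
      exact dvd_sub h3 (h6.mul_left _)
    have h8 : q ∣ 1 := by exact_mod_cast h7
    exact hq.one_lt.ne' (Nat.dvd_one.1 h8)

theorem card_small (F : Finset ℕ) (M : ℤ) (X A : ℕ) (hX : 2 ≤ X) (hM : M ≠ 0) (hMX : |M| ≤ (X : ℤ) ^ (A + 2))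
    (hF : ∀ p ∈ F, p.Prime ∧ (p : ℤ) ∣ M) : (F.card : ℝ) ≤ 2 * (A + 2) * Real.log X := by
  have h1 := card_le_log F M.natAbs (Int.natAbs_ne_zero.2 hM) (fun p hp =>
    ⟨(hF p hp).1, Int.natCast_dvd.1 (hF p hp).2⟩)
  have hX0 : (0 : ℝ) < X := by exact_mod_cast (by omega : 0 < X)
  have h2 : Real.log (M.natAbs : ℝ) ≤ (A + 2) * Real.log X := by
    have h3 : ((M.natAbs : ℕ) : ℝ) ≤ (X : ℝ) ^ (A + 2) := by
      have h4 : ((M.natAbs : ℕ) : ℤ) ≤ (X : ℤ) ^ (A + 2) := by rw [Int.natCast_natAbs]; exact hMX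
      exact_mod_cast h4
    have h5 : (0 : ℝ) < M.natAbs := by exact_mod_cast Nat.pos_of_ne_zero (Int.natAbs_ne_zero.2 hM)
    calc Real.log (M.natAbs : ℝ) ≤ Real.log ((X : ℝ) ^ (A + 2)) := Real.log_le_log h5 h3
      _ = (A + 2) * Real.log X := by rw [Real.log_pow]; push_cast; ring
  have h3 : (1 / 2 : ℝ) ≤ Real.log 2 := by
    have := Real.log_two_gt_d9
    linarith
  have h4 : (F.card : ℝ) * (1 / 2) ≤ (F.card : ℝ) * Real.log 2 :=
    mul_le_mul_of_nonneg_left h3 (Nat.cast_nonneg _)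
  linarith

theorem result (A : ℕ) : ∃ r : ℕ, 2 ≤ r ∧ ∃ c₁ c₂ K μ κ : ℝ, 0 < c₁ ∧ 0 < c₂ ∧ 0 < K ∧ 0 < μ ∧ 0 < κ ∧
    ∀ᶠ X : ℕ in atTop, ∀ n : ℕ, 1 ≤ n → n ≤ X ^ A →
      κ / Real.log X ^ 4 ≤ V n X ∧
      μ * X ≤ ({s : ℕ | X < s ∧ s ≤ 2 * X ∧ Regular n X A r c₁ c₂ K s}.ncard : ℝ) := by
  classical
  obtain ⟨κ₀, hκ₀, hU⟩ := uniA
  obtain ⟨D', hD'⟩ : ∃ D' : ℕ, D' = ⌈4 * (A + 2) / κ₀⌉₊ := ⟨_, rfl⟩
  obtain ⟨K0, hK0, hr⟩ := hU 1 D' le_rfl
  obtain ⟨c₁, c₂, K, μ, hc₁, hc₂, hK, hμ, hmain⟩ := hr K0 le_rfl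
  obtain ⟨κ, hκ, hVge⟩ := Vq_ge 2
  refine ⟨K0, hK0, c₁, c₂, K, μ, κ, hc₁, hc₂, by linarith, hμ, hκ, ?_⟩
  filter_upwards [hmain, eventually_ge_atTop 16] with X hmain hX16
  intro n hn1 hn2
  have hXr : (16 : ℝ) ≤ X := by exact_mod_cast hX16
  have hXpos : (0 : ℝ) < X := by linarith
  have hlX : 0 < Real.log X := Real.log_pos (by linarith)
  have hadm := adm_QQ n
  have hper := perA_QA n
  have hVV : V n X = Vq (QQ (QA n)) X := by
    unfold V Vq pz
    apply Finset.prod_congr rfl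
    intro q hq
    rw [Finset.mem_filter] at hq
    have h1 : nu n q = nuB (QQ (QA n)) q := by
      unfold nu nuB
      congr 1
      ext m
      simp only [Finset.mem_filter, Finset.mem_range]
      apply and_congr Iff.rfl
      rw [hq.2.dvd_mul]
      rfl
    rw [h1]
  constructor
  · rw [hVV]
    exact hVge X (by omega) _ (perQQ _ 1 hper) hadm
  have hbig : 8 * n * X + 1 ≤ X ^ (A + 2) := by
    have h1 : n * X ≤ X ^ A * X := Nat.mul_le_mul_right _ hn2
    have h2 : X ^ (A + 2) = X ^ A * X * X := by ring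
    have h3 : 0 < X ^ A * X := by positivity
    rw [h2]
    nlinarith
  have hfin := hmain (QA n) hper hadm (by
    intro T hT1 hT2 h hh
    rw [Finset.mem_Icc] at hh
    obtain ⟨y, hy⟩ : ∃ y : ℕ, y = ⌊(X : ℝ) ^ (1 / (K0 : ℝ))⌋₊ := ⟨_, rfl⟩
    rw [← hy]
    have hh2 : h ≤ X := hh.2.trans hT2
    have hnh : n * h ≤ n * X := Nat.mul_le_mul_left _ hh2
    have hnh1 : 1 ≤ n * h := Nat.mul_pos hn1 hh.1
    have hbig' : 2 * (n * h) + 1 ≤ X ^ (A + 2) := by nlinarith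
    have hbigZ : 2 * ((n : ℤ) * h) + 1 ≤ (X : ℤ) ^ (A + 2) := by exact_mod_cast hbig'
    have hnhZ : (1 : ℤ) ≤ (n : ℤ) * h := by exact_mod_cast hnh1
    have hsub : (pz y).filter (fun p : ℕ => T < p ∧ CoG (QQ (QA n)) p h) ⊆
        (pz y).filter (fun p : ℕ => (p : ℤ) ∣ 2 * n * h + 1) ∪
          (pz y).filter (fun p : ℕ => (p : ℤ) ∣ 2 * n * h - 1) := by
      intro p hp
      simp only [Finset.mem_union, Finset.mem_filter] at hp ⊢
      have := coll_cases n p T h (mem_pz.1 hp.1).2 hp.2.1 hh.1 hh.2 hp.2.2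
      tauto
    have h1 := (Finset.card_le_card hsub).trans (Finset.card_union_le _ _)
    have h2 := card_small ((pz y).filter (fun p : ℕ => (p : ℤ) ∣ 2 * n * h + 1)) (2 * n * h + 1) X A (by omega)
      (by positivity) (by
        rw [abs_le]
        constructor <;> nlinarith) (fun p hp => by
        rw [Finset.mem_filter] at hp
        exact ⟨(mem_pz.1 hp.1).2, hp.2⟩)
    have h3 := card_small ((pz y).filter (fun p : ℕ => (p : ℤ) ∣ 2 * n * h - 1)) (2 * n * h - 1) X A (by omega)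
      (by nlinarith) (by
        rw [abs_le]
        constructor <;> nlinarith) (fun p hp => by
        rw [Finset.mem_filter] at hp
        exact ⟨(mem_pz.1 hp.1).2, hp.2⟩)
    have h5 : ((((pz y).filter (fun p : ℕ => T < p ∧ CoG (QQ (QA n)) p h)).card : ℕ) : ℝ) ≤
        4 * (A + 2) * Real.log X := by
      have h6 : ((((pz y).filter (fun p : ℕ => T < p ∧ CoG (QQ (QA n)) p h)).card : ℕ) : ℝ) ≤
          ((((pz y).filter (fun p : ℕ => (p : ℤ) ∣ 2 * n * h + 1)).card +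
          ((pz y).filter (fun p : ℕ => (p : ℤ) ∣ 2 * n * h - 1)).card : ℕ) : ℝ) := by
        exact_mod_cast h1
      push_cast at h6
      linarith
    have h6 : 4 * (A + 2) * Real.log X ≤ (D' : ℝ) * T := by
      have h7 : 4 * ((A : ℝ) + 2) / κ₀ ≤ D' := by rw [hD']; exact Nat.le_ceil _
      calc 4 * ((A : ℝ) + 2) * Real.log X = (4 * ((A : ℝ) + 2) / κ₀) * (κ₀ * Real.log X) := by field_simp
        _ ≤ (D' : ℝ) * T := mul_le_mul h7 hT1 (by positivity) (Nat.cast_nonneg _)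
    have h7 := h5.trans h6
    have h8 : ((((pz y).filter (fun p : ℕ => T < p ∧ CoG (QQ (QA n)) p h)).card : ℕ) : ℝ) ≤
      ((D' * T : ℕ) : ℝ) := by push_cast; exact h7
    have h9 : ((pz y).filter (fun p : ℕ => T < p ∧ CoG (QQ (QA n)) p h)).card ≤ D' * T := by exact_mod_cast h8
    refine (le_of_eq ?_).trans h9
    congr)
  refine hfin.trans ?_
  have hfinset : ((Finset.Ioc X (2 * X)).filter (fun s => Regular n X A K0 c₁ c₂ K s) : Set ℕ) =
      {s : ℕ | X < s ∧ s ≤ 2 * X ∧ Regular n X A K0 c₁ c₂ K s} := by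
    ext s
    simp [and_assoc]
  rw [← hfinset, Set.ncard_coe_finset, Nat.cast_le]
  apply Finset.card_le_card
  intro s hs
  simp only [Finset.mem_filter, Finset.mem_Ioc] at hs ⊢
  refine ⟨hs.1, ?_⟩
  obtain ⟨⟨hsX1, hsX2⟩, hs2⟩ := hs
  intro u v hu hv huv1 huv2
  rw [hVV] at huv1 ⊢
  obtain ⟨h1, h2⟩ := hs2 u v hu hv huv1 huv2
  have hvX : v ≤ 4 * X := by
    have h4 : (v : ℝ) ≤ s + u := by linarith
    have h5 : v ≤ s + u := by exact_mod_cast h4
    omega
  have hz0 : (0 : ℝ) ≤ (X : ℝ) ^ (1 / (K0 : ℝ)) := by positivity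
  have hz1 : (1 : ℝ) ≤ (X : ℝ) ^ (1 / (K0 : ℝ)) := Real.one_le_rpow (by linarith) (by positivity)
  have hK00 : (K0 : ℝ) ≠ 0 := by
    have : 0 < K0 := by omega
    exact_mod_cast this.ne'
  constructor
  · refine h1.trans ?_
    have hset : ((Finset.Ioc u v).filter (fun p => Good n ((A + 2) * K0) ((X : ℝ) ^ (1 / (K0 : ℝ))) p) : Set ℕ) =
        {p : ℕ | u < p ∧ p ≤ v ∧ Good n ((A + 2) * K0) ((X : ℝ) ^ (1 / (K0 : ℝ))) p} := by
      ext s
      simp [and_assoc]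
    rw [← hset, Set.ncard_coe_finset, Nat.cast_le]
    apply Finset.card_le_card
    intro m hm
    simp only [Finset.mem_filter, Finset.mem_Ioc] at hm ⊢
    obtain ⟨⟨hm1, hm2⟩, hm3, hm4⟩ := hm
    refine ⟨⟨hm1, hm2⟩, hm3, ?_⟩
    have hq : ∀ q : ℕ, q.Prime → q ∣ 2 * m * n + 1 → (X : ℝ) ^ (1 / (K0 : ℝ)) < (q : ℝ) := by
      intro q hq hqP
      by_contra hcon
      rw [not_lt] at hcon
      exact hm4 q (mem_pz.2 ⟨Nat.le_floor hcon, hq⟩) (Or.inr hqP)
    refine ⟨?_, hq⟩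
    apply length_le _ ((A + 2) * K0) (Nat.succ_ne_zero _) _ hq _ hz1
    have h5 : 2 * m * n + 1 ≤ X ^ (A + 2) := by
      have h6 : m * n ≤ (4 * X) * n := Nat.mul_le_mul_right _ (hm2.trans hvX)
      nlinarith
    have h5' : ((2 * m * n + 1 : ℕ) : ℝ) ≤ (X : ℝ) ^ (A + 2) := by exact_mod_cast h5
    have h6 : ((X : ℝ) ^ (1 / (K0 : ℝ))) ^ K0 = X := by
      rw [← Real.rpow_natCast, ← Real.rpow_mul hXpos.le, one_div, inv_mul_cancel₀ hK00, Real.rpow_one]
    have h7 : ((X : ℝ) ^ (1 / (K0 : ℝ))) ^ ((A + 2) * K0) = (X : ℝ) ^ (A + 2) := by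
      rw [mul_comm, pow_mul, h6]
    calc ((2 * m * n + 1 : ℕ) : ℝ) ≤ (X : ℝ) ^ (A + 2) := h5'
      _ = ((X : ℝ) ^ (1 / (K0 : ℝ))) ^ ((A + 2) * K0) := h7.symm
      _ ≤ ((X : ℝ) ^ (1 / (K0 : ℝ))) ^ ((A + 2) * K0 + 1) := pow_le_pow_right₀ hz1 (by omega)
  · refine le_trans ?_ h2
    have hset : ((Finset.Ioc u v).filter (fun m => Sieved n ((X : ℝ) ^ (1 / (K0 : ℝ))) m) : Set ℕ) =
        {m : ℕ | u < m ∧ m ≤ v ∧ Sieved n ((X : ℝ) ^ (1 / (K0 : ℝ))) m} := by
      ext s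
      simp [and_assoc]
    rw [← hset, Set.ncard_coe_finset, Nat.cast_le]
    apply Finset.card_le_card
    intro m hm
    simp only [Finset.mem_filter, Finset.mem_Ioc] at hm ⊢
    refine ⟨hm.1, fun p hp hQ => ?_⟩
    have hpp := (mem_pz.1 hp).2
    have h3 := hm.2 p hpp (by
      rcases hQ with hQ | hQ
      · exact hQ.mul_right _
      · exact Dvd.dvd.mul_left hQ _)
    have h4 := mem_pz' hz0 hp
    linarith

end Pool.Agent.Results.MP_2f88e5_nt.PrimeMultipliersInWindows
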