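import Mathlib
import Pool.Agent.N740.HK.Hawk
import Pool.Agent.N740.HK.Tgt
import Pool.Agent.N740.HK.Sch
import Pool.Agent.N727.SM.Least

/-!
# Members of the form `2 k q + 1` with small `k` in all sequential random models of the primes

The integers are decided one after the other and the conditional probability of choosing `n + 1`,
given the decisions up to `n`, is asymptotic to `1 / log n`, almost surely.  Nothing else is assumed:
no independence and no rate of convergence.  The independent model of Cramér and the random sieve of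
Hawkins are examples.
-/

set_option autoImplicit false

open MeasureTheory Filter Set ProbabilityTheory
open scoped Topology

namespace Pool.Agent.Results.MP_2f88e5_nt.SequentialModels

variable {Ω : Type}

/-- `A n` is the event that `n` is chosen.  The events are adapted to the filtration `ℱ` and the
conditional probability of `A (n + 1)` given `ℱ n`, times `log n`, tends to `1` almost surely. -/
def SequentialModel [m : MeasurableSpace Ω] (μ : Measure Ω) (ℱ : Filtration ℕ m) (A : ℕ → Set Ω) : Prop :=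
  (∀ n, MeasurableSet[ℱ n] (A n)) ∧
  ∀ᵐ ω ∂μ, Tendsto (fun n : ℕ => (μ[(A (n + 1)).indicator (fun _ => (1 : ℝ)) | ℱ n]) ω * Real.log n) atTop (𝓝 1)

/-- The model of Cramér: independent events, `n` is chosen with probability `1 / log n` for `n ≥ 3`. -/
def CramerModel [MeasurableSpace Ω] (μ : Measure Ω) (A : ℕ → Set Ω) : Prop :=
  (∀ n, MeasurableSet (A n)) ∧ iIndepSet A μ ∧ ∀ n : ℕ, 3 ≤ n → μ (A n) = ENNReal.ofReal (1 / Real.log n)

open Classical in
/-- The random sieve of Hawkins: `2` is chosen, and given the decisions up to `n ≥ 2` the number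
`n + 1` is chosen with probability `∏ (1 - 1 / h)`, the product over the chosen `2 ≤ h ≤ n`. -/
def HawkinsSieve [m : MeasurableSpace Ω] (μ : Measure Ω) (ℱ : Filtration ℕ m) (A : ℕ → Set Ω) : Prop :=
  (∀ n, MeasurableSet[ℱ n] (A n)) ∧ A 2 = univ ∧
  ∀ n, 2 ≤ n → μ[(A (n + 1)).indicator (fun _ => (1 : ℝ)) | ℱ n] =ᵐ[μ]
    fun ω => ∏ h ∈ Finset.Icc 2 n, if ω ∈ A h then 1 - 1 / (h : ℝ) else 1

open Pool.Agent.N740.HK Pool.Agent.R528.RM

lemma prod_inv (A : ℕ → Set Ω) (n : ℕ) (ω : Ω) [DecidablePred fun h => ω ∈ A h] :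
    (∏ h ∈ Finset.Icc 2 n, if ω ∈ A h then 1 - 1 / (h : ℝ) else 1) = (Y A n ω)⁻¹ := by
  unfold Y
  rw [← Finset.prod_inv_distrib]
  refine Finset.prod_congr rfl fun h hh => ?_
  have h2 : (2 : ℝ) ≤ h := by exact_mod_cast (Finset.mem_Icc.1 hh).1
  by_cases hA : ω ∈ A h
  · rw [if_pos hA, if_pos hA, inv_div]
    field_simp
  · rw [if_neg hA, if_neg hA, inv_one]

lemma log_ratio : Tendsto (fun n : ℕ => (Real.log ((n + 1 : ℕ) : ℝ))⁻¹ * Real.log n) atTop (𝓝 1) := by
  have h1 : Tendsto (fun n : ℕ => Real.log ((n : ℝ) + 1) - Real.log n) atTop (𝓝 0) := by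
    have h1 : Tendsto (fun n : ℕ => 1 + (1 : ℝ) / n) atTop (𝓝 (1 + 0)) :=
      tendsto_const_nhds.add tendsto_one_div_atTop_nhds_zero_nat
    rw [add_zero] at h1
    have h2 := (Real.continuousAt_log (one_ne_zero)).tendsto.comp h1
    rw [Real.log_one] at h2
    refine h2.congr' ?_
    filter_upwards [eventually_gt_atTop 0] with n hn
    have hn' : (0 : ℝ) < n := by exact_mod_cast hn
    show Real.log (1 + 1 / (n : ℝ)) = _
    rw [← Real.log_div (by positivity) hn'.ne']
    congr 1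
    field_simp
  have h2 : Tendsto (fun n : ℕ => Real.log ((n : ℝ) + 1)) atTop atTop :=
    Real.tendsto_log_atTop.comp (tendsto_atTop_add_const_right _ _ tendsto_natCast_atTop_atTop)
  have h3 := h1.div_atTop h2
  have h4 : Tendsto (fun n : ℕ => 1 - (Real.log ((n : ℝ) + 1) - Real.log n) / Real.log ((n : ℝ) + 1)) atTop (𝓝 (1 - 0)) :=
    tendsto_const_nhds.sub h3
  rw [sub_zero] at h4
  refine h4.congr' ?_
  filter_upwards [h2.eventually_gt_atTop 0] with n hn
  push_cast
  field_simp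
  ring

end Pool.Agent.Results.MP_2f88e5_nt.SequentialModels

open Pool.Agent.Results.MP_2f88e5_nt.SequentialModels Pool.Agent.N740.HK Pool.Agent.R528.RM

/-- The random sieve of Hawkins is a sequential model, the model of Cramér is one for some filtration.
In every sequential model, almost surely: infinitely many integers are chosen; for all large chosen `q`
there is `k` with `1 ≤ k < 2 (q + 1)`, not divisible by `q`, such that `2 k q + 1` is chosen; and for all
`a ≥ 2`, `b` and `0 < ε < 1`: for all large integers `q` (chosen or not) there is `1 ≤ k ≤ (1 + ε) log² q`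
with `a k q + b` chosen, and for all large `x` there is a chosen `q` with `x < q ≤ x + x ^ (1 - ε / 8)` such
that `a k q + b` is not chosen for any `1 ≤ k ≤ (1 - ε) log² q`. -/
theorem Pool.Agent.Results.MP_2f88e5_nt.SequentialModels.result
    {Ω : Type} [m : MeasurableSpace Ω] (μ : Measure Ω) [IsProbabilityMeasure μ] (A : ℕ → Set Ω) :
    (CramerModel μ A → ∃ ℱ : Filtration ℕ m, SequentialModel μ ℱ A) ∧
    ∀ ℱ : Filtration ℕ m,
    (HawkinsSieve μ ℱ A → SequentialModel μ ℱ A) ∧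
    (SequentialModel μ ℱ A →
      ∀ᵐ ω ∂μ, {n | ω ∈ A n}.Infinite ∧
        (∀ᶠ q : ℕ in atTop, ω ∈ A q → ∃ k : ℕ, 1 ≤ k ∧ k < 2 * (q + 1) ∧ ¬ q ∣ k ∧ ω ∈ A (2 * k * q + 1)) ∧
        ∀ a b : ℕ, 2 ≤ a → ∀ ε : ℝ, 0 < ε → ε < 1 →
          (∀ᶠ q : ℕ in atTop, ∃ k : ℕ, 1 ≤ k ∧ (k : ℝ) ≤ (1 + ε) * Real.log q ^ 2 ∧ ω ∈ A (a * k * q + b)) ∧
          ∀ᶠ x : ℕ in atTop, ∃ q : ℕ, ω ∈ A q ∧ x < q ∧ (q : ℝ) ≤ x + (x : ℝ) ^ (1 - ε / 8) ∧
            ∀ k : ℕ, 1 ≤ k → (k : ℝ) ≤ (1 - ε) * Real.log q ^ 2 → ω ∉ A (a * k * q + b)) := by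
  classical
  refine ⟨?_, fun ℱ => ⟨?_, ?_⟩⟩
  · rintro ⟨hA, hi, hp⟩
    refine ⟨gen hA, gen_meas hA, ?_⟩
    have h1 : ∀ᵐ ω ∂μ, ∀ n, (μ[(A (n + 1)).indicator (fun _ => (1 : ℝ)) | gen hA n]) ω =
        (μ (A (n + 1))).toReal := ae_all_iff.2 fun n => dens_gen hA hi n
    filter_upwards [h1] with ω hω
    refine log_ratio.congr' ?_
    filter_upwards [eventually_ge_atTop 2] with n hn
    rw [hω, hp (n + 1) (by omega), ENNReal.toReal_ofReal, one_div]
    have : 0 ≤ Real.log ((n + 1 : ℕ) : ℝ) := Real.log_natCast_nonneg _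
    positivity
  · rintro ⟨h1, h2, h3⟩
    have hs : Pool.Agent.N740.HK.HS μ ℱ A := ⟨h1, h2, fun n hn => by
      filter_upwards [h3 n hn] with ω hω
      rw [← prod_inv]
      exact hω⟩
    exact ⟨h1, Pool.Agent.N740.HK.hawk_dens hs⟩
  · rintro ⟨hA, hd⟩
    set up : ℕ → ℝ := fun n => 1 / ((n : ℝ) + 2) with hup
    have up1 : ∀ n, 0 < up n := fun n => by simp only [hup]; positivity
    have up2 : ∀ n, up n < 1 := fun n => by
      simp only [hup]
      rw [div_lt_one (by positivity)]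
      have : (0 : ℝ) ≤ n := Nat.cast_nonneg n
      linarith
    have hu : ∀ᵐ ω ∂μ, ∀ a b i : ℕ, 1 ≤ a → ∀ᶠ q : ℕ in atTop, ∃ k : ℕ, 1 ≤ k ∧
        (k : ℝ) ≤ (1 + up i) * Real.log q ^ 2 ∧ ω ∈ A (a * k * q + b) := by
      rw [ae_all_iff]; intro a
      rw [ae_all_iff]; intro b
      rw [ae_all_iff]; intro i
      by_cases ha : 1 ≤ a
      · filter_upwards [Pool.Agent.N727.SM.least_upper (b := b) hA hd ha (up1 i) (up2 i).le] with ω hω _
        exact hω
      · exact Eventually.of_forall fun ω h => absurd h ha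
    have hl : ∀ᵐ ω ∂μ, ∀ a b i : ℕ, 2 ≤ a → ∀ᶠ x : ℕ in atTop, ∃ q : ℕ, ω ∈ A q ∧ x < q ∧
        (q : ℝ) ≤ x + (x : ℝ) ^ (1 - up i / 4) ∧
        ∀ k : ℕ, 1 ≤ k → (k : ℝ) ≤ (1 - up i) * Real.log q ^ 2 → ω ∉ A (a * k * q + b) := by
      rw [ae_all_iff]; intro a
      rw [ae_all_iff]; intro b
      rw [ae_all_iff]; intro i
      by_cases ha : 2 ≤ a
      · filter_upwards [Pool.Agent.N727.SM.least_lower (b := b) hA hd ha (up1 i) (up2 i)] with ω hω _
        exact hω
      · exact Eventually.of_forall fun ω h => absurd h ha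
    filter_upwards [hu, hl, cnt_law (μ := μ) hA hd] with ω h1 h2 h3
    refine ⟨inf_of_law h3, ?_, ?_⟩
    · have h4 : ∀ᶠ x : ℝ in atTop, 2 * Real.log x ^ 2 ≤ x ^ (1 / 2 : ℝ) :=
        Pool.Agent.N727.SM.pow_log (by norm_num) (by norm_num) 2
      filter_upwards [h1 2 1 0 (by norm_num), tendsto_natCast_atTop_atTop.eventually h4,
        eventually_ge_atTop 2] with q hq hq4 hq2 _
      obtain ⟨k, hk1, hk2, hk3⟩ := hq
      have hq2' : (2 : ℝ) ≤ q := by exact_mod_cast hq2
      have h5 : (q : ℝ) ^ (1 / 2 : ℝ) < q := by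
        calc (q : ℝ) ^ (1 / 2 : ℝ) < (q : ℝ) ^ (1 : ℝ) :=
              Real.rpow_lt_rpow_of_exponent_lt (by linarith) (by norm_num)
          _ = q := Real.rpow_one _
      have h6 : (k : ℝ) < q := by
        have h7 : (1 + up 0) * Real.log q ^ 2 ≤ 2 * Real.log q ^ 2 :=
          mul_le_mul_of_nonneg_right (by linarith [up2 0]) (sq_nonneg _)
        linarith
      have h8 : k < q := by exact_mod_cast h6
      exact ⟨k, hk1, by omega, fun h => absurd (Nat.le_of_dvd (by omega) h) (by omega), hk3⟩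
    · intro a b ha ε hε hε1
      have hc : 1 < ⌈1 / ε⌉₊ := by
        rw [Nat.lt_ceil]
        rw [Nat.cast_one, lt_div_iff₀ hε]
        linarith
      obtain ⟨i, hi⟩ : ∃ i : ℕ, ⌈1 / ε⌉₊ = i + 2 := ⟨⌈1 / ε⌉₊ - 2, by omega⟩
      have hi1 : 1 / ε ≤ (i : ℝ) + 2 := by
        have := Nat.le_ceil (1 / ε)
        rw [hi] at this
        exact_mod_cast this
      have hi2 : (i : ℝ) + 2 < 1 / ε + 1 := by
        have := Nat.ceil_lt_add_one (show 0 ≤ 1 / ε by positivity)
        rw [hi] at this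
        exact_mod_cast this
      have hi0 : (0 : ℝ) < (i : ℝ) + 2 := by positivity
      have hup1 : up i ≤ ε := by
        simp only [hup]
        rw [div_le_iff₀ hi0]
        rw [div_le_iff₀ hε] at hi1
        linarith
      have hup2 : ε / 2 ≤ up i := by
        simp only [hup]
        rw [le_div_iff₀ hi0]
        have : ε * ((i : ℝ) + 2) < ε * (1 / ε + 1) := mul_lt_mul_of_pos_left hi2 hε
        have e : ε * (1 / ε + 1) = 1 + ε := by field_simp
        linarith
      refine ⟨?_, ?_⟩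
      · filter_upwards [h1 a b i (by omega)] with q hq
        obtain ⟨k, hk1, hk2, hk3⟩ := hq
        refine ⟨k, hk1, hk2.trans ?_, hk3⟩
        exact mul_le_mul_of_nonneg_right (by linarith) (sq_nonneg _)
      · filter_upwards [h2 a b i ha, eventually_ge_atTop 1] with x hx hx1
        obtain ⟨q, hq1, hq2, hq3, hq4⟩ := hx
        refine ⟨q, hq1, hq2, hq3.trans ?_, fun k hk1 hk2 => hq4 k hk1 (hk2.trans ?_)⟩
        · have h5 : (x : ℝ) ^ (1 - up i / 4) ≤ (x : ℝ) ^ (1 - ε / 8) :=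
            Real.rpow_le_rpow_of_exponent_le (by exact_mod_cast hx1) (by linarith)
          linarith
        · exact mul_le_mul_of_nonneg_right (by linarith) (sq_nonneg _)
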