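import Mathlib
import Pool.Agent.N860.LP.Fin

set_option autoImplicit false

/-!
# Primes `2 k n + 1` with small `k` in every sequential random model of the primes

The integers are decided one after the other, no integer divisible by an element of a finite set `Q`
of primes is chosen, and the conditional probability of choosing `n + 1` (not divisible by an element
of `Q`) given the past is asymptotic to `∏_{p ∈ Q} (1 - 1/p)⁻¹ / log n`.  No independence and no rate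
is assumed.  Almost surely the number of the `k ≤ K`, not divisible by `n`, for which `2 k n + 1` is
chosen has the expected size uniformly for all `K ≥ H (log n)²`, and the least such `k` is at most
`(1 + ε) (log n)² ∏_{p ∈ Q, p ∣ 2 n} (1 - 1/p)`.
-/

open MeasureTheory Filter
open scoped Topology

namespace Pool.Agent.Results.MP_2f88e5_nt.SievedModels

/-- the number of the `k`, `1 ≤ k ≤ K`, not divisible by `n`, for which `2 k n + 1` is in `S` -/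
noncomputable def R (S : Set ℕ) (n K : ℕ) : ℕ :=
  {k : ℕ | 1 ≤ k ∧ k ≤ K ∧ ¬ n ∣ k ∧ 2 * k * n + 1 ∈ S}.ncard

/-- the local factors: the product of `(1 - 1/p)⁻¹` over the `p ∈ Q` which divide `2 n` -/
noncomputable def G (Q : Finset ℕ) (n : ℕ) : ℝ := ∏ p ∈ Q, (if p ∣ 2 * n then (1 - 1 / (p : ℝ))⁻¹ else 1)

/-- the main term `G(n) ∑_{1 ≤ k ≤ K} 1 / log (2 k n + 1)` -/
noncomputable def M (Q : Finset ℕ) (n K : ℕ) : ℝ :=
  G Q n * ∑ k ∈ Finset.Ioc 0 K, 1 / Real.log ((2 * k * n + 1 : ℕ) : ℝ)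

open Pool.Agent.N860.LP

lemma R_eq {Ω : Type} (S : ℕ → Set Ω) (n K : ℕ) (ω : Ω) : (R {a | ω ∈ S a} n K : ℝ) = Rn S n K ω := by
  classical
  unfold R Rn adm
  rw [← Set.ncard_coe_finset]
  congr 2
  ext k
  simp only [Set.mem_ofPred_eq, Finset.coe_filter, Finset.mem_filter, Finset.mem_Ioc]
  constructor
  · rintro ⟨h1, h2, h3, h4⟩
    exact ⟨⟨⟨h1, h2⟩, h3⟩, h4⟩
  · rintro ⟨⟨⟨h1, h2⟩, h3⟩, h4⟩
    exact ⟨h1, h2, h3, h4⟩

/-- Let `S n` be the event that `n` is chosen, adapted to a filtration `ℱ`, let `Q` be a finite set of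
primes, let no integer divisible by an element of `Q` be chosen, and let the conditional probability
of `S (n + 1)` given `ℱ n`, times `log n`, tend to `∏_{p ∈ Q} (1 - 1/p)⁻¹` along the `n` for which no
element of `Q` divides `n + 1`, almost surely.  Let `R(n, K)` be the number of the `k`, `1 ≤ k ≤ K`,
not divisible by `n`, for which `2 k n + 1` is chosen.
(1) Almost surely, for every `C` and `ε > 0` there is `H` such that for all large `n` and all `K` with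
`H (log n)² ≤ K ≤ n^C`: `|R(n, K) - M(n, K)| ≤ ε M(n, K)`.
(2) Almost surely, for every `ε > 0` and all large `n` there is `k` with
`1 ≤ k ≤ (1 + ε) (log n)² / G(n)`, not divisible by `n`, for which `2 k n + 1` is chosen.
(3) Almost surely, for all large `n`: `R(n, 2 n + 1) ≥ G(n) n / (3 log n)`; in particular there is `k`
with `1 ≤ k < 2 (n + 1)`, not divisible by `n`, for which `2 k n + 1` is chosen. -/
theorem result {Ω : Type} [mΩ : MeasurableSpace Ω] (μ : Measure Ω) [IsProbabilityMeasure μ]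
    (ℱ : Filtration ℕ mΩ) (S : ℕ → Set Ω) (hS : ∀ n, MeasurableSet[ℱ n] (S n))
    (Q : Finset ℕ) (hQ : ∀ p ∈ Q, p.Prime) (hcop : ∀ n, (∃ p ∈ Q, p ∣ n) → S n = ∅)
    (hd : ∀ᵐ ω ∂μ, Tendsto (fun n : ℕ =>
      (μ[(S (n + 1)).indicator (fun _ => (1 : ℝ)) | ℱ n]) ω * Real.log n)
      (atTop ⊓ 𝓟 {n : ℕ | ∀ p ∈ Q, ¬ p ∣ n + 1}) (𝓝 (∏ p ∈ Q, (1 - 1 / (p : ℝ))⁻¹))) :
    (∀ᵐ ω ∂μ, ∀ C : ℕ, ∀ ε : ℝ, 0 < ε → ∃ H : ℝ, ∃ n₀ : ℕ, ∀ n ≥ n₀, ∀ K : ℕ,
      H * Real.log n ^ 2 ≤ K → K ≤ n ^ C → |(R {a | ω ∈ S a} n K : ℝ) - M Q n K| ≤ ε * M Q n K) ∧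
    (∀ᵐ ω ∂μ, ∀ ε : ℝ, 0 < ε → ∀ᶠ n : ℕ in atTop, ∃ k : ℕ, 1 ≤ k ∧
      (k : ℝ) ≤ (1 + ε) * Real.log n ^ 2 / G Q n ∧ ¬ n ∣ k ∧ ω ∈ S (2 * k * n + 1)) ∧
    (∀ᵐ ω ∂μ, ∀ᶠ n : ℕ in atTop, G Q n * (n / (3 * Real.log n)) ≤ R {a | ω ∈ S a} n (2 * n + 1) ∧
      ∃ k : ℕ, 1 ≤ k ∧ k < 2 * (n + 1) ∧ ¬ n ∣ k ∧ ω ∈ S (2 * k * n + 1)) := by
  classical
  have hprof := profile (μ := μ) hS Q hQ hcop hd
  have h1 : ∀ᵐ ω ∂μ, ∀ C : ℕ, ∀ ε : ℝ, 0 < ε → ∃ H : ℝ, ∃ n₀ : ℕ, ∀ n ≥ n₀, ∀ K : ℕ,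
      H * Real.log n ^ 2 ≤ K → K ≤ n ^ C → |(R {a | ω ∈ S a} n K : ℝ) - M Q n K| ≤ ε * M Q n K := by
    filter_upwards [uniform (μ := μ) hS Q hQ hprof] with ω hω C ε hε
    obtain ⟨H, n₀, hn₀⟩ := hω C ε hε
    refine ⟨H, n₀, fun n hn K hK1 hK2 => ?_⟩
    rw [R_eq]
    exact hn₀ n hn K hK1 hK2
  refine ⟨h1, sharp_final (μ := μ) hS Q hQ hprof, ?_⟩
  filter_upwards [h1] with ω hω
  obtain ⟨H, n₀, hn₀⟩ := hω 2 (1 / 2) (by norm_num)
  have hsq : ∀ᶠ n : ℕ in atTop, H * Real.log n ^ 2 ≤ n := by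
    have k2 := (isLittleO_log_rpow_atTop (r := 1 / 2) (by norm_num)).bound (c := 1 / (|H| + 1)) (by positivity)
    have k3 := tendsto_natCast_atTop_atTop (R := ℝ) |>.eventually k2
    filter_upwards [k3, eventually_ge_atTop 1] with n g1 g2
    have hn0 : (0 : ℝ) ≤ n := Nat.cast_nonneg n
    rw [Real.norm_of_nonneg (Real.log_natCast_nonneg n), Real.norm_of_nonneg (by positivity)] at g1
    have h5 := pow_le_pow_left₀ (Real.log_natCast_nonneg n) g1 2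
    have h6 : (1 / (|H| + 1) * (n : ℝ) ^ (1 / 2 : ℝ)) ^ 2 = (1 / (|H| + 1)) ^ 2 * n := by
      rw [mul_pow, ← Real.rpow_natCast ((n : ℝ) ^ (1 / 2 : ℝ)), ← Real.rpow_mul hn0]
      norm_num
    rw [h6] at h5
    have h7 : H * Real.log n ^ 2 ≤ (|H| + 1) ^ 2 * Real.log n ^ 2 := by
      apply mul_le_mul_of_nonneg_right _ (sq_nonneg _)
      nlinarith [le_abs_self H, abs_nonneg H]
    have h8 := mul_le_mul_of_nonneg_left h5 (show 0 ≤ (|H| + 1) ^ 2 by positivity)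
    have h9 : (|H| + 1) ^ 2 * ((1 / (|H| + 1)) ^ 2 * n) = n := by
      field_simp
    linarith
  filter_upwards [hsq, eventually_ge_atTop n₀, eventually_ge_atTop 5] with n g1 g2 g3
  have hn0 : 0 < n := by omega
  have hn1 : (1 : ℝ) < n := by exact_mod_cast (show 1 < n by omega)
  have hL : 0 < Real.log n := Real.log_pos hn1
  have hK2 : 2 * n + 1 ≤ n ^ 2 := by nlinarith
  have k1 := hn₀ n g2 (2 * n + 1) (g1.trans (by
    push_cast
    linarith)) hK2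
  have k2 := Mt_ge Q hQ n (2 * n + 1) hn0
  have k3 : Real.log ((2 * (2 * n + 1) * n + 1 : ℕ) : ℝ) ≤ 3 * Real.log n := by
    have h2 : 2 * (2 * n + 1) * n + 1 ≤ n ^ 3 := by
      have h3 : n ^ 3 = n * n * n := by ring
      nlinarith
    have h4 : Real.log ((2 * (2 * n + 1) * n + 1 : ℕ) : ℝ) ≤ Real.log ((n : ℝ) ^ 3) := by
      apply Real.log_le_log (by positivity)
      exact_mod_cast h2
    rw [Real.log_pow] at h4
    exact_mod_cast h4
  have hG := (G_bounds Q hQ n).1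
  have hlp : 0 < Real.log ((2 * (2 * n + 1) * n + 1 : ℕ) : ℝ) := by
    apply Real.log_pos
    exact_mod_cast (show 1 < 2 * (2 * n + 1) * n + 1 by
      have : 0 < 2 * (2 * n + 1) * n := by positivity
      omega)
  have k4 : 2 * (G Q n * (n / (3 * Real.log n))) ≤ M Q n (2 * n + 1) := by
    have h5 : (2 * n : ℝ) / (3 * Real.log n) ≤ ((2 * n + 1 : ℕ) : ℝ) / Real.log ((2 * (2 * n + 1) * n + 1 : ℕ) : ℝ) := by
      rw [div_le_div_iff₀ (by positivity) hlp]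
      have h6 : (2 * n : ℝ) ≤ ((2 * n + 1 : ℕ) : ℝ) := by push_cast; linarith
      exact mul_le_mul h6 k3 hlp.le (Nat.cast_nonneg _)
    have h6 : Pool.Agent.N860.LP.G Q n * ((2 * n : ℝ) / (3 * Real.log n)) ≤ Mt Q n (2 * n + 1) :=
      (mul_le_mul_of_nonneg_left h5 (by linarith)).trans k2
    have h7 : 2 * (G Q n * (n / (3 * Real.log n))) = Pool.Agent.N860.LP.G Q n * ((2 * n : ℝ) / (3 * Real.log n)) := by
      show 2 * (Pool.Agent.N860.LP.G Q n * (n / (3 * Real.log n))) = _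
      ring
    rw [h7]
    exact h6
  have k5 : G Q n * (n / (3 * Real.log n)) ≤ R {a | ω ∈ S a} n (2 * n + 1) := by
    have := (abs_le.1 k1).1
    linarith
  refine ⟨k5, ?_⟩
  have k6 : 0 < R {a | ω ∈ S a} n (2 * n + 1) := by
    have hG' : (1 : ℝ) ≤ G Q n := hG
    have : (0 : ℝ) < R {a | ω ∈ S a} n (2 * n + 1) := lt_of_lt_of_le (by positivity) k5
    exact_mod_cast this
  obtain ⟨k, q1, q2, q3, q4⟩ := Set.nonempty_of_ncard_ne_zero k6.ne'
  exact ⟨k, q1, by omega, q3, q4⟩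

end Pool.Agent.Results.MP_2f88e5_nt.SievedModels
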